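import Pool.Agent.V11257.NSA

/-!
# An element of a monad without a multiple in a larger monad

Let `P, Q` be nonprincipal ultrafilters that contain disjoint sets of primes, and let `G = P * Q`.
Then `P` divides `G`.  We construct an enlargement with an element `x` of the monad of `P` such that
every element is below `h x` for some standard function `h`.  If `x z` were in the monad of `G`, then
`z` would be above all `h x`.
-/

set_option autoImplicit false

namespace Pool.Agent.Results.MP_2734af_lc.NoMultiple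

open Pool.Agent.V11257.NSA Filter FirstOrder FirstOrder.Language

/-- The set of the multiples of the elements of `A`. -/
def up (A : Set ℕ+) : Set ℕ+ := {n | ∃ a ∈ A, a ∣ n}

/-- Divisibility of ultrafilters. -/
def TildeDvd (F G : Ultrafilter ℕ+) : Prop := ∀ A ∈ F, up A ∈ G

/-- Divisibility in the nonstandard extension. -/
def StarDvd {X : Type} [(full ℕ+).Structure X] (x y : X) : Prop :=
  ∃ z : X, y = starOp (B := ℕ+) (· * ·) x z

/-- `X` is an enlargement: for every family of subsets of the positive integers with the finite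
intersection property, the extensions of its members have a common element. -/
def IsEnlargement (X : Type) [(full ℕ+).Structure X] : Prop :=
  ∀ 𝒜 : Set (Set ℕ+), (∀ T ⊆ 𝒜, T.Finite → (⋂₀ T).Nonempty) → ∃ x : X, ∀ A ∈ 𝒜, x ∈ star X A

theorem isEnlargement_of_monad {X : Type} [(full ℕ+).Structure X]
    (h : ∀ F : Ultrafilter ℕ+, (monad X F).Nonempty) : IsEnlargement X := by
  intro 𝒜 hfip
  have hne : (generate 𝒜).NeBot := generate_neBot_iff.2 fun T hT hfin => hfip T hT hfin
  obtain ⟨x, hx⟩ := h (Ultrafilter.of (generate 𝒜))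
  exact ⟨x, fun A hA => hx A (Ultrafilter.of_le _ (mem_generate_of_mem hA))⟩

/-! ## The model -/

section Model
variable (P : Ultrafilter ℕ+)

/-- The index set. -/
abbrev I : Type := ℕ+ × (Ultrafilter ℕ+ → ℕ+)

/-- An ultrafilter on the second factor of the index set. -/
noncomputable def E₁ : Ultrafilter (Ultrafilter ℕ+ → ℕ+) :=
  Ultrafilter.of (Filter.pi fun F : Ultrafilter ℕ+ => (F : Filter ℕ+))

/-- The ultrafilter on the index set. -/
noncomputable def E : Ultrafilter I := E₁.bind fun j => P.map fun i => (i, j)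

theorem mem_E {A : Set I} :
    A ∈ E P ↔ ∀ᶠ j in (E₁ : Filter (Ultrafilter ℕ+ → ℕ+)), ∀ᶠ i in (P : Filter ℕ+), (i, j) ∈ A :=
  Iff.rfl

theorem E_fst {A : Set ℕ+} (hA : A ∈ P) : {i : I | i.1 ∈ A} ∈ E P := by
  rw [mem_E]
  exact Eventually.of_forall fun j => hA

/-- A family is bounded if it is bounded by a function of the first coordinate. -/
def Bdd (f : I → ℕ+) : Prop := ∃ h : ℕ+ → ℕ+, ∀ i, f i ≤ h i.1

theorem bdd_comp {n : ℕ} (g : (Fin n → ℕ+) → ℕ+) (f : Fin n → I → ℕ+) (hf : ∀ k, Bdd (f k)) :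
    Bdd fun i => g fun k => f k i := by
  choose h hh using hf
  have hb : ∀ m : ℕ+, ∃ b : ℕ+, ∀ v : Fin n → ℕ+, (∀ k, v k ≤ h k m) → g v ≤ b := by
    intro m
    have hfin : {v : Fin n → ℕ+ | ∀ k, v k ≤ h k m}.Finite := by
      have : {v : Fin n → ℕ+ | ∀ k, v k ≤ h k m} = Set.Iic (fun k => h k m) := by
        ext v; exact Iff.rfl
      rw [this]
      exact Set.finite_Iic _
    obtain ⟨b, hb⟩ := (hfin.image g).bddAbove
    exact ⟨b, fun v hv => hb ⟨v, hv, rfl⟩⟩
  choose b hb using hb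
  exact ⟨b, fun i => hb i.1 _ fun k => hh k i⟩

theorem funMap_cls {n : ℕ} (g : (full ℕ+).Functions n) (f : Fin n → I → ℕ+) :
    Structure.funMap g (fun k => cls (E P) (f k)) =
      cls (E P) fun i => (show (Fin n → ℕ+) → ℕ+ from g) fun k => f k i :=
  Ultraproduct.funMap_cast (M := fun _ : I => ℕ+) (u := E P) g f

/-- The bounded part of the ultrapower. -/
def S : (full ℕ+).Substructure (UP ℕ+ (E P)) where
  carrier := {x | ∃ f, cls (E P) f = x ∧ Bdd f}
  fun_mem := by
    intro n g x hx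
    choose f hf hb using hx
    have hx' : x = fun k => cls (E P) (f k) := funext fun k => (hf k).symm
    subst hx'
    refine ⟨fun i => (show (Fin n → ℕ+) → ℕ+ from g) fun k => f k i, (funMap_cls P g f).symm, ?_⟩
    exact bdd_comp _ f hb

theorem S_elem : (S P).IsElementary := by
  apply Substructure.isElementary_of_exists
  intro n φ x a ha
  have hx : ∀ k, ∃ f, cls (E P) f = (x k : UP ℕ+ (E P)) ∧ Bdd f := fun k => (x k).2
  choose f hf hb using hx
  obtain ⟨α, rfl⟩ := cls_surj (E P) a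
  have key : ∀ (e : Empty → UP ℕ+ (E P)) (e' : Empty → ℕ+) (β : I → ℕ+),
      φ.Realize e (Fin.snoc (Subtype.val ∘ x) (cls (E P) β) : _ → UP ℕ+ (E P)) ↔
      ∀ᶠ i in E P, φ.Realize e' (Fin.snoc (fun k => f k i) (β i) : Fin (n + 1) → ℕ+) := by
    intro e e' β
    have h1 := Ultraproduct.boundedFormula_realize_cast (M := fun _ : I => ℕ+) (u := E P) φ
      (default : Empty → I → ℕ+) (Fin.snoc f β : Fin (n + 1) → I → ℕ+)
    have h2 : (fun k => cls (E P) ((Fin.snoc f β : Fin (n + 1) → I → ℕ+) k)) =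
        (Fin.snoc (Subtype.val ∘ x) (cls (E P) β) : _ → UP ℕ+ (E P)) := by
      funext k
      refine Fin.lastCases ?_ (fun k => ?_) k
      · simp only [Fin.snoc_last]
      · simp only [Fin.snoc_castSucc]
        exact hf k
    have h3 : ∀ i, (fun k => (Fin.snoc f β : Fin (n + 1) → I → ℕ+) k i) =
        (Fin.snoc (fun k => f k i) (β i) : Fin (n + 1) → ℕ+) := by
      intro i
      funext k
      refine Fin.lastCases ?_ (fun k => ?_) k
      · simp only [Fin.snoc_last]
      · simp only [Fin.snoc_castSucc]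
    have h4 : (fun i : Empty => cls (E P) ((default : Empty → I → ℕ+) i)) = e :=
      Subsingleton.elim _ _
    have h5 : ∀ i : I, (fun k : Empty => (default : Empty → I → ℕ+) k i) = e' :=
      fun i => Subsingleton.elim _ _
    rw [← h2, ← h4]
    refine h1.trans ?_
    simp only [h3, h5]
  classical
  let e' : Empty → ℕ+ := fun x => x.elim
  let s : (Fin n → ℕ+) → ℕ+ := fun v =>
    if h : ∃ w, φ.Realize e' (Fin.snoc v w : Fin (n + 1) → ℕ+)
      then h.choose else 1
  refine ⟨⟨cls (E P) fun i => s fun k => f k i, ⟨_, rfl, bdd_comp s f hb⟩⟩, ?_⟩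
  refine (key _ e' _).2 ?_
  filter_upwards [(key _ e' α).1 ha] with i hi
  have hex : ∃ w, φ.Realize e'
    (Fin.snoc (fun k => f k i) w : Fin (n + 1) → ℕ+) := ⟨_, hi⟩
  have : (s fun k => f k i) = hex.choose := dif_pos hex
  rw [this]
  exact hex.choose_spec

theorem isExt_S : IsExt ℕ+ (S P) := by
  have h1 : (full ℕ+).ElementarilyEquivalent ℕ+ (UP ℕ+ (E P)) := isExt_UP (E P)
  have h2 : (full ℕ+).ElementarilyEquivalent (S P) (UP ℕ+ (E P)) :=
    ElementarySubstructure.elementarilyEquivalent (⟨S P, S_elem P⟩ : (full ℕ+).ElementarySubstructure _)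
  exact h1.trans h2.symm

theorem mem_star_S (f : I → ℕ+) (hf : Bdd f) (A : Set ℕ+) :
    (⟨cls (E P) f, ⟨f, rfl, hf⟩⟩ : S P) ∈ star (S P) A ↔ ∀ᶠ i in E P, f i ∈ A := by
  rw [← mem_star_cls]
  have h1 : (fun k => ((![(⟨cls (E P) f, ⟨f, rfl, hf⟩⟩ : S P)] k : S P) : UP ℕ+ (E P))) =
      ![cls (E P) f] := by
    funext k
    fin_cases k
    rfl
  unfold Pool.Agent.V11257.NSA.star
  rw [Set.mem_ofPred_eq, Set.mem_ofPred_eq, ← h1]
  exact Iff.rfl

/-- All monads are nonempty in the bounded part of the ultrapower if `P` is nonprincipal. -/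
theorem monad_nonempty (hP : ∀ k : ℕ+, ∀ᶠ i in (P : Filter ℕ+), k ≤ i) (F : Ultrafilter ℕ+) :
    (monad (S P) F).Nonempty := by
  have hb : Bdd fun i : I => min (i.2 F) i.1 := ⟨id, fun i => min_le_right _ _⟩
  refine ⟨⟨cls (E P) fun i => min (i.2 F) i.1, ⟨_, rfl, hb⟩⟩, ?_⟩
  intro A hA
  refine (mem_star_S P _ hb A).2 ?_
  change {i : I | min (i.2 F) i.1 ∈ A} ∈ E P
  rw [mem_E]
  have h1 : (E₁ : Filter (Ultrafilter ℕ+ → ℕ+)) ≤
      Filter.pi fun F : Ultrafilter ℕ+ => (F : Filter ℕ+) := Ultrafilter.of_le _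
  have h2 : ∀ᶠ j in (E₁ : Filter (Ultrafilter ℕ+ → ℕ+)), j F ∈ A :=
    (tendsto_eval_pi (fun F : Ultrafilter ℕ+ => (F : Filter ℕ+)) F).mono_left h1 hA
  filter_upwards [h2] with j hj
  filter_upwards [hP (j F)] with i hi
  rw [min_eq_left hi]
  exact hj

end Model

/-! ## The ultrafilters -/

/-- Enumerations of two disjoint sets of primes. -/
noncomputable def d (i n : ℕ) : ℕ+ := ⟨Nat.nth Nat.Prime (2 * n + i), (Nat.prime_nth_prime _).pos⟩

theorem d_prime (i n : ℕ) : (d i n : ℕ).Prime := Nat.prime_nth_prime _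

theorem d_ne (m n : ℕ) : (d 0 m : ℕ) ≠ d 1 n := by
  intro h
  have := Nat.nth_injective Nat.infinite_setOfPred_prime h
  omega

theorem d_mono (i : ℕ) : StrictMono fun n => (d i n : ℕ) := by
  intro m n hmn
  exact Nat.nth_strictMono Nat.infinite_setOfPred_prime (by omega)

/-- The ultrafilters `P` and `Q`. -/
noncomputable def PQ (i : ℕ) : Ultrafilter ℕ+ := (hyperfilter ℕ).map (d i)

theorem PQ_range (i : ℕ) : Set.range (d i) ∈ PQ i :=
  Eventually.of_forall (f := (hyperfilter ℕ : Filter ℕ)) fun n => ⟨n, rfl⟩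

theorem PQ_gt (i : ℕ) (k : ℕ+) : ∀ᶠ n in (PQ i : Filter ℕ+), k < n := by
  change ∀ᶠ n in (hyperfilter ℕ : Filter ℕ), k < d i n
  have h : (Set.Iic (k : ℕ))ᶜ ∈ (hyperfilter ℕ : Filter ℕ) :=
    Filter.hyperfilter_le_cofinite (by
      rw [Filter.mem_cofinite, compl_compl]; exact Set.finite_Iic _)
  filter_upwards [h] with n hn
  have h1 : (k : ℕ) < n := by simpa using hn
  exact h1.trans_le ((d_mono i).id_le n)

/-- The ultrafilter `G = P * Q`. -/
noncomputable def G : Ultrafilter ℕ+ := (PQ 0).bind fun p => (PQ 1).map fun q => p * q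

theorem mem_G {A : Set ℕ+} :
    A ∈ G ↔ ∀ᶠ p in (PQ 0 : Filter ℕ+), ∀ᶠ q in (PQ 1 : Filter ℕ+), p * q ∈ A := Iff.rfl

/-- The disproof. -/
theorem result : ∃ (X : Type) (_ : (full ℕ+).Structure X), IsExt ℕ+ X ∧ IsEnlargement X ∧
    ∃ F G : Ultrafilter ℕ+, TildeDvd F G ∧ ∃ x ∈ monad X F, ∀ y ∈ monad X G, ¬ StarDvd x y := by
  refine ⟨S (PQ 0), inferInstance, isExt_S (PQ 0), isEnlargement_of_monad (monad_nonempty (PQ 0)
    fun k => (PQ_gt 0 k).mono fun i hi => hi.le), PQ 0, G, ?_, ?_⟩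
  · intro A hA
    rw [mem_G]
    filter_upwards [hA] with p hp
    exact Eventually.of_forall fun q => ⟨p, hp, dvd_mul_right p q⟩
  · have hb : Bdd (fun i : I => i.1) := ⟨id, fun i => le_rfl⟩
    refine ⟨⟨cls (E (PQ 0)) fun i => i.1, ⟨_, rfl, hb⟩⟩, ?_, ?_⟩
    · intro A hA
      exact (mem_star_S (PQ 0) _ hb A).2 (E_fst (PQ 0) hA)
    · rintro y hy ⟨⟨z, f, rfl, h, hh⟩, rfl⟩
      -- the set of the products with large second factor
      let A : Set ℕ+ := {n | ∃ a b, h (d 0 a) < d 1 b ∧ n = d 0 a * d 1 b}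
      have hA : A ∈ G := by
        rw [mem_G]
        filter_upwards [PQ_range 0] with p hp
        obtain ⟨a, rfl⟩ := hp
        filter_upwards [PQ_range 1, PQ_gt 1 (h (d 0 a))] with q hq hlt
        obtain ⟨b, rfl⟩ := hq
        exact ⟨a, b, hlt, rfl⟩
      have h1 := hy A hA
      have hbf : Bdd f := ⟨h, hh⟩
      have hbm : Bdd (fun i : I => i.1 * f i) :=
        bdd_comp (fun v => v 0 * v 1) ![fun i => i.1, f] (by
          intro k; fin_cases k
          · exact hb
          · exact hbf)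
      have hprod : starOp (B := ℕ+) (· * ·) (⟨cls (E (PQ 0)) fun i => i.1, ⟨_, rfl, hb⟩⟩ : S (PQ 0))
          ⟨cls (E (PQ 0)) f, ⟨f, rfl, hbf⟩⟩ = ⟨cls (E (PQ 0)) fun i => i.1 * f i,
            ⟨_, rfl, hbm⟩⟩ := by
        apply Subtype.ext
        change Structure.funMap (fun2 (B := ℕ+) (· * ·)) _ = _
        refine Eq.trans ?_ (funMap_cls (PQ 0) (fun2 (B := ℕ+) (· * ·)) ![fun i => i.1, f])
        congr 1
        funext k
        fin_cases k <;> rfl
      rw [hprod] at h1
      have h1' := (mem_star_S (PQ 0) _ hbm A).1 h1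
      have h2 := E_fst (PQ 0) (PQ_range 0)
      obtain ⟨i, hi1, ⟨a, ha⟩⟩ := (E (PQ 0)).nonempty_of_mem (inter_mem h1' h2)
      obtain ⟨a', b', hlt, hmul⟩ := hi1
      have hmul' : (i.1 : ℕ) * f i = d 0 a' * d 1 b' := by exact_mod_cast congrArg PNat.val hmul
      rw [← ha] at hmul'
      have hdvd : (d 0 a : ℕ) ∣ d 0 a' * d 1 b' := hmul' ▸ dvd_mul_right _ _
      have ha' : (d 0 a : ℕ) = d 0 a' := by
        rcases (d_prime 0 a).dvd_mul.1 hdvd with h | h
        · exact (Nat.prime_dvd_prime_iff_eq (d_prime 0 a) (d_prime 0 a')).1 h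
        · exact absurd ((Nat.prime_dvd_prime_iff_eq (d_prime 0 a) (d_prime 1 b')).1 h) (d_ne _ _)
      rw [ha'] at hmul'
      have hf : (f i : ℕ) = d 1 b' := Nat.eq_of_mul_eq_mul_left (d_prime 0 a').pos hmul'
      have hle := hh i
      have hi0 : i.1 = d 0 a' := by rw [← ha]; exact PNat.eq ha'
      rw [hi0] at hle
      have : f i = d 1 b' := PNat.eq hf
      rw [this] at hle
      exact absurd hlt (not_lt.2 hle)

end Pool.Agent.Results.MP_2734af_lc.NoMultiple
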